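import Pool.Agent.BEP.Stmts

/-!
# Squad BEP, row PHH (helper52): products of functions of `H^1_0` are in `H^1_0` of the product.
-/

namespace Pool.Agent.BEP.H52

open Set Filter Topology MeasureTheory
open scoped InnerProductSpace ENNReal NNReal
open Pool.Agent Pool.Agent.BE01 Pool.Agent.BEP

noncomputable section

variable {d m : ℕ}

lemma sf (Ω : Set (En d)) : SFinite (mu Ω) := by
  unfold mu; infer_instance

lemma nb {E1 : Type*} [NormedAddCommGroup E1] {μ : Measure (En d)} {f g : En d → E1}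
    (hf : AEStronglyMeasurable f μ) (hg : AEStronglyMeasurable g μ) :
    eLpNorm g 2 μ ≤ eLpNorm f 2 μ + eLpNorm (fun x => f x - g x) 2 μ := by
  have h : g = f - fun x => f x - g x := by funext x; simp
  calc eLpNorm g 2 μ = eLpNorm (f - fun x => f x - g x) 2 μ :=
        congrArg (fun w => eLpNorm w 2 μ) h
    _ ≤ _ := eLpNorm_sub_le hf (hf.sub hg) (by norm_num)

section prod

variable {Ω1 : Set (En d)} {Ω2 : Set (En m)} {e : En (d + m) ≃ᵐ En d × En m}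
  (he : ∀ x, e x = (fs x, sn x))
  (hm : MeasurePreserving e (mu (Pr Ω1 Ω2)) ((mu Ω1).prod (mu Ω2)))

include he hm

lemma asf {E1 : Type*} [TopologicalSpace E1] {f : En d → E1}
    (hf : AEStronglyMeasurable f (mu Ω1)) :
    AEStronglyMeasurable (fun x : En (d + m) => f (fs x)) (mu (Pr Ω1 Ω2)) := by
  haveI := sf Ω1
  haveI := sf Ω2
  have h := (hf.comp_fst (ν := mu Ω2)).comp_measurePreserving hm
  have e1 : (fun x : En (d + m) => f (fs x)) = (fun z : En d × En m => f z.1) ∘ e := by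
    funext x; simp [he]
  rw [e1]; exact h

lemma ass {E1 : Type*} [TopologicalSpace E1] {f : En m → E1}
    (hf : AEStronglyMeasurable f (mu Ω2)) :
    AEStronglyMeasurable (fun x : En (d + m) => f (sn x)) (mu (Pr Ω1 Ω2)) := by
  haveI := sf Ω1
  haveI := sf Ω2
  have h := (hf.comp_snd (μ := mu Ω1)).comp_measurePreserving hm
  have e1 : (fun x : En (d + m) => f (sn x)) = (fun z : En d × En m => f z.2) ∘ e := by
    funext x; simp [he]
  rw [e1]; exact h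

lemma ten {E1 E2 G : Type*} [NormedAddCommGroup E1] [NormedAddCommGroup E2]
    [NormedAddCommGroup G] {f : En d → E1} {g : En m → E2} {h : En (d + m) → G}
    (hf : AEStronglyMeasurable f (mu Ω1)) (hg : AEStronglyMeasurable g (mu Ω2))
    (hh : ∀ x, ‖h x‖ ≤ ‖f (fs x)‖ * ‖g (sn x)‖) :
    eLpNorm h 2 (mu (Pr Ω1 Ω2)) ≤ eLpNorm f 2 (mu Ω1) * eLpNorm g 2 (mu Ω2) := by
  haveI := sf Ω1
  haveI := sf Ω2
  refine (eLpNorm_mono_real hh).trans ?_
  have e1 : (fun x : En (d + m) => ‖f (fs x)‖ * ‖g (sn x)‖) =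
      (fun z : En d × En m => ‖f z.1‖ * ‖g z.2‖) ∘ e := by
    funext x; simp [he]
  have hG : AEStronglyMeasurable (fun z : En d × En m => ‖f z.1‖ * ‖g z.2‖)
      ((mu Ω1).prod (mu Ω2)) := hf.norm.comp_fst.mul hg.norm.comp_snd
  rw [e1, eLpNorm_comp_measurePreserving hG hm]
  rw [eLpNorm_eq_lintegral_rpow_enorm_toReal two_ne_zero ENNReal.ofNat_ne_top,
    eLpNorm_eq_lintegral_rpow_enorm_toReal two_ne_zero ENNReal.ofNat_ne_top,
    eLpNorm_eq_lintegral_rpow_enorm_toReal two_ne_zero ENNReal.ofNat_ne_top,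
    ← ENNReal.mul_rpow_of_nonneg _ _ (by positivity)]
  refine le_of_eq ?_
  rw [← lintegral_prod_mul (hf.enorm.pow_const _) (hg.enorm.pow_const _)]
  refine congrArg (fun w => w ^ (1 / (2 : ℝ≥0∞).toReal)) ?_
  refine lintegral_congr fun z => ?_
  rw [enorm_mul, enorm_norm, enorm_norm, ENNReal.mul_rpow_of_nonneg _ _ (by positivity)]

lemma dif {E1 E2 G : Type*} [NormedAddCommGroup E1] [NormedAddCommGroup E2]
    [NormedAddCommGroup G] [NormedSpace ℝ E1] [NormedSpace ℝ E2] [NormedSpace ℝ G]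
    (L : E1 →L[ℝ] E2 →L[ℝ] G) (hL : ∀ a b, ‖L a b‖ ≤ ‖a‖ * ‖b‖)
    {f f' : En d → E1} {g g' : En m → E2} {δ : ℝ≥0∞} (hδ : δ ≤ 1)
    (hf : AEStronglyMeasurable f (mu Ω1)) (hf' : AEStronglyMeasurable f' (mu Ω1))
    (hg : AEStronglyMeasurable g (mu Ω2)) (hg' : AEStronglyMeasurable g' (mu Ω2))
    (h1 : eLpNorm (fun x => f x - f' x) 2 (mu Ω1) ≤ δ)
    (h2 : eLpNorm (fun x => g x - g' x) 2 (mu Ω2) ≤ δ) :
    eLpNorm (fun x : En (d + m) => L (f (fs x)) (g (sn x)) - L (f' (fs x)) (g' (sn x))) 2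
      (mu (Pr Ω1 Ω2)) ≤ δ * (eLpNorm f 2 (mu Ω1) + eLpNorm g 2 (mu Ω2) + 1) := by
  have e1 : (fun x : En (d + m) => L (f (fs x)) (g (sn x)) - L (f' (fs x)) (g' (sn x))) =
      (fun x => L (f (fs x) - f' (fs x)) (g (sn x))) +
        fun x => L (f' (fs x)) (g (sn x) - g' (sn x)) := by
    funext x
    simp only [Pi.add_apply, map_sub, ContinuousLinearMap.sub_apply]
    abel
  have m1 : AEStronglyMeasurable (fun x : En (d + m) => L (f (fs x) - f' (fs x)) (g (sn x)))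
      (mu (Pr Ω1 Ω2)) :=
    L.aestronglyMeasurable_comp₂ (asf he hm (hf.sub hf')) (ass he hm hg)
  have m2 : AEStronglyMeasurable (fun x : En (d + m) => L (f' (fs x)) (g (sn x) - g' (sn x)))
      (mu (Pr Ω1 Ω2)) :=
    L.aestronglyMeasurable_comp₂ (asf he hm hf') (ass he hm (hg.sub hg'))
  rw [e1]
  refine (eLpNorm_add_le m1 m2 (by norm_num)).trans ?_
  have t1 := ten he hm (f := fun x => f x - f' x) (g := g)
    (h := fun x : En (d + m) => L (f (fs x) - f' (fs x)) (g (sn x))) (hf.sub hf') hg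
    (fun x => hL _ _)
  have t2 := ten he hm (f := f') (g := fun x => g x - g' x)
    (h := fun x : En (d + m) => L (f' (fs x)) (g (sn x) - g' (sn x))) hf' (hg.sub hg')
    (fun x => hL _ _)
  have n1 : eLpNorm f' 2 (mu Ω1) ≤ eLpNorm f 2 (mu Ω1) + 1 :=
    (nb hf hf').trans (add_le_add le_rfl (h1.trans hδ))
  calc _ ≤ δ * eLpNorm g 2 (mu Ω2) + (eLpNorm f 2 (mu Ω1) + 1) * δ :=
        add_le_add (t1.trans (mul_le_mul' h1 le_rfl)) (t2.trans (mul_le_mul' n1 h2))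
    _ = δ * (eLpNorm f 2 (mu Ω1) + eLpNorm g 2 (mu Ω2) + 1) := by ring

end prod

lemma njn (y : En d) (z : En m) : ‖jn y z‖ ≤ ‖y‖ + ‖z‖ := by
  refine (pow_le_pow_iff_left₀ (norm_nonneg _) (by positivity) two_ne_zero).1 ?_
  rw [norm_jn]
  nlinarith [norm_nonneg y, norm_nonneg z]

lemma jn_sub (y y' : En d) (z z' : En m) : jn (y - y') (z - z') = jn y z - jn y' z' := by
  ext i
  refine Fin.addCases (fun i => ?_) (fun j => ?_) i <;> simp

lemma ejn {μ : Measure (En (d + m))} {A : En (d + m) → En d} {B : En (d + m) → En m}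
    (hA : AEStronglyMeasurable A μ) (hB : AEStronglyMeasurable B μ) :
    eLpNorm (fun x => jn (A x) (B x)) 2 μ ≤ eLpNorm A 2 μ + eLpNorm B 2 μ := by
  have h1 : eLpNorm (fun x => jn (A x) (B x)) 2 μ ≤ eLpNorm (fun x => ‖A x‖ + ‖B x‖) 2 μ :=
    eLpNorm_mono_real fun x => njn _ _
  refine h1.trans ?_
  have h2 := eLpNorm_add_le hA.norm hB.norm (p := 2) (by norm_num)
  rw [eLpNorm_norm, eLpNorm_norm] at h2
  exact h2

lemma gcont {ψ : En d → ℝ} (h : ContDiff ℝ ((⊤ : ℕ∞) : WithTop ℕ∞) ψ) :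
    Continuous (gradient ψ) := by
  have h1 : Continuous (fderiv ℝ ψ) := h.continuous_fderiv (by simp)
  exact (InnerProductSpace.toDual ℝ (En d)).symm.continuous.comp h1

/-- Row PHH. -/
theorem phh (hP : PmpStmt) (hT : PttStmt) : PhhStmt := by
  intro d m Ω1 Ω2 u v F K hΩ1 hΩ2 hu hv
  obtain ⟨e, he, -, -, hcj, hmp, -⟩ := hP d m
  have hm := hmp Ω1 Ω2 hΩ1 hΩ2
  obtain ⟨uL, FL, uA⟩ := hu
  obtain ⟨vL, KL, vA⟩ := hv
  change MemLp u 2 (mu Ω1) at uL
  change MemLp F 2 (mu Ω1) at FL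
  change MemLp v 2 (mu Ω2) at vL
  change MemLp K 2 (mu Ω2) at KL
  -- the three bilinear maps
  have L1 : ∀ (a b : ℝ), ‖ContinuousLinearMap.mul ℝ ℝ a b‖ ≤ ‖a‖ * ‖b‖ := fun a b => by
    rw [ContinuousLinearMap.mul_apply', norm_mul]
  have L2 : ∀ (a : En d) (b : ℝ), ‖(ContinuousLinearMap.lsmul ℝ ℝ : ℝ →L[ℝ] En d →L[ℝ] En d).flip
      a b‖ ≤ ‖a‖ * ‖b‖ := fun a b => by
    rw [ContinuousLinearMap.flip_apply, ContinuousLinearMap.lsmul_apply, norm_smul, mul_comm]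
  have L3 : ∀ (a : ℝ) (b : En m), ‖(ContinuousLinearMap.lsmul ℝ ℝ : ℝ →L[ℝ] En m →L[ℝ] En m)
      a b‖ ≤ ‖a‖ * ‖b‖ := fun a b => by
    rw [ContinuousLinearMap.lsmul_apply, norm_smul]
  have mJ : ∀ {A : En (d + m) → En d} {B : En (d + m) → En m},
      AEStronglyMeasurable A (mu (Pr Ω1 Ω2)) → AEStronglyMeasurable B (mu (Pr Ω1 Ω2)) →
      AEStronglyMeasurable (fun x => jn (A x) (B x)) (mu (Pr Ω1 Ω2)) := fun hA hB =>
    hcj.comp_aestronglyMeasurable (hA.prodMk hB)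
  have a1 := asf he hm uL.1
  have a2 := asf he hm FL.1
  have b1 := ass he hm vL.1
  have b2 := ass he hm KL.1
  refine ⟨⟨a1.mul b1, ?_⟩, ⟨mJ (b1.smul a2) (a1.smul b2), ?_⟩, ?_⟩
  · refine lt_of_le_of_lt (ten he hm (f := u) (g := v) uL.1 vL.1 fun x => ?_)
      (ENNReal.mul_lt_top uL.2 vL.2)
    rw [norm_mul]
  · refine lt_of_le_of_lt (ejn (b1.smul a2) (a1.smul b2)) (ENNReal.add_lt_top.2 ⟨?_, ?_⟩)
    · refine lt_of_le_of_lt (ten he hm (f := F) (g := v) FL.1 vL.1 fun x => ?_)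
        (ENNReal.mul_lt_top FL.2 vL.2)
      rw [norm_smul, mul_comm]
    · refine lt_of_le_of_lt (ten he hm (f := u) (g := K) uL.1 KL.1 fun x => ?_)
        (ENNReal.mul_lt_top uL.2 KL.2)
      rw [norm_smul]
  · intro ε hε
    set N : ℝ≥0∞ := (eLpNorm u 2 (mu Ω1) + eLpNorm v 2 (mu Ω2) + 1) +
      ((eLpNorm F 2 (mu Ω1) + eLpNorm v 2 (mu Ω2) + 1) +
        (eLpNorm u 2 (mu Ω1) + eLpNorm K 2 (mu Ω2) + 1)) with hN
    have hNt : N ≠ ⊤ := by
      have h1 := uL.2.ne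
      have h2 := vL.2.ne
      have h3 := FL.2.ne
      have h4 := KL.2.ne
      simp only [hN, ne_eq, ENNReal.add_eq_top, h1, h2, h3, h4, ENNReal.one_ne_top, or_self,
        not_false_eq_true]
    obtain ⟨n, hn0, hn⟩ := ENNReal.exists_nnreal_pos_mul_lt hNt hε.ne'
    set δ : ℝ≥0∞ := min (n : ℝ≥0∞) 1 with hδ
    have hδ1 : δ ≤ 1 := min_le_right _ _
    have hδ0 : 0 < δ := lt_min (by exact_mod_cast hn0) one_pos
    have hδN : δ * N < ε := lt_of_le_of_lt (mul_le_mul' (min_le_left _ _) le_rfl) hn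
    obtain ⟨ψ1, t1, p1, p2⟩ := uA δ hδ0
    obtain ⟨ψ2, t2, q1, q2⟩ := vA δ hδ0
    have c1 : AEStronglyMeasurable ψ1 (mu Ω1) := t1.1.continuous.aestronglyMeasurable
    have c2 : AEStronglyMeasurable ψ2 (mu Ω2) := t2.1.continuous.aestronglyMeasurable
    have c3 : AEStronglyMeasurable (gradient ψ1) (mu Ω1) := (gcont t1.1).aestronglyMeasurable
    have c4 : AEStronglyMeasurable (gradient ψ2) (mu Ω2) := (gcont t2.1).aestronglyMeasurable
    obtain ⟨g1, g2⟩ := (hT d m Ω1 Ω2).1 ψ1 ψ2 t1 t2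
    have D1 := dif he hm (ContinuousLinearMap.mul ℝ ℝ) L1 hδ1 uL.1 c1 vL.1 c2 p1.le q1.le
    have D2 := dif he hm ((ContinuousLinearMap.lsmul ℝ ℝ : ℝ →L[ℝ] En d →L[ℝ] En d).flip) L2 hδ1
      FL.1 c3 vL.1 c2 p2.le q1.le
    have D3 := dif he hm (ContinuousLinearMap.lsmul ℝ ℝ : ℝ →L[ℝ] En m →L[ℝ] En m) L3 hδ1
      uL.1 c1 KL.1 c4 p1.le q2.le
    refine ⟨_, g1, ?_, ?_⟩
    · refine lt_of_le_of_lt ?_ hδN
      refine le_trans ?_ (D1.trans (mul_le_mul' le_rfl (by rw [hN]; exact le_self_add)))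
      exact le_rfl
    · refine lt_of_le_of_lt ?_ hδN
      have e1 : (fun x : En (d + m) => jn (v (sn x) • F (fs x)) (u (fs x) • K (sn x)) -
          gradient (fun x : En (d + m) => ψ1 (fs x) * ψ2 (sn x)) x) =
          fun x => jn (v (sn x) • F (fs x) - ψ2 (sn x) • gradient ψ1 (fs x))
            (u (fs x) • K (sn x) - ψ1 (fs x) • gradient ψ2 (sn x)) := by
        funext x
        rw [g2 x, jn_sub]
      show eLpNorm (fun x : En (d + m) => jn (v (sn x) • F (fs x)) (u (fs x) • K (sn x)) -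
          gradient (fun x : En (d + m) => ψ1 (fs x) * ψ2 (sn x)) x) 2 (mu (Pr Ω1 Ω2)) ≤ _
      rw [e1]
      have n1 := (b1.smul a2).sub ((ass he hm c2).smul (asf he hm c3))
      have n2 := (a1.smul b2).sub ((asf he hm c1).smul (ass he hm c4))
      refine (ejn n1 n2).trans ?_
      refine (add_le_add D2 D3).trans ?_
      rw [← mul_add]
      exact mul_le_mul' le_rfl (by rw [hN]; exact le_add_self)

end

end Pool.Agent.BEP.H52
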